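import Pool.Agent.Lib.SE.St.Spec

/-!
# SE-St, module Alg (helper57): algebraic classes

`tAlg : S_Cur → S_Alg`: every class in `Alg2` is in `AlgC`.
-/

set_option autoImplicit false

noncomputable section

namespace HC.St

open HC.SE (Crv Alg2)

namespace Alg_aux

theorem linC {T T' : AV} (φ : T.V →ₗ[ℂ] T'.V) : IsC (T := T) (T' := T') (fun v => φ v) :=
  ⟨fun x y => map_add φ x y, fun x y => map_smul φ x y⟩

theorem push_eq {T T' : AV} {m : ℕ} (φ : T.V →ₗ[ℂ] T'.V) (c : Hlg T m) (a : Fin m → F1 T)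
    (a' : Fin m → F1 T') (h : ∀ i v, ev (a i) v = ev (a' i) (φ v)) :
    itg (HC.push φ c) a' = itg c a := by
  have e : (fun i => HC.pull φ (a' i)) = a := by
    funext i
    apply LinearMap.ext
    intro v
    exact (h i v).symm
  show c (fun i => HC.pull φ (a' i)) = c a
  rw [e]

theorem cap_eq {T : AV} {m r : ℕ} (p q : Fin r → F1 T) (c : Hlg T (m + 2)) (a : Fin m → F1 T) :
    itg (HC.cap p q c) a = ∑ j, itg c (Matrix.vecCons (p j) (Matrix.vecCons (q j) a)) := by
  show (∑ j, ((c.curryLeft (p j)).curryLeft (q j))) a = _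
  have key : ∀ s : Finset (Fin r), (∑ j ∈ s, ((c.curryLeft (p j)).curryLeft (q j))) a =
      ∑ j ∈ s, itg c (Matrix.vecCons (p j) (Matrix.vecCons (q j) a)) := by
    intro s
    classical
    induction s using Finset.induction_on with
    | empty => simp
    | insert i s hi ih =>
      rw [Finset.sum_insert hi, Finset.sum_insert hi, AlternatingMap.add_apply, ih]
      rfl
  exact key Finset.univ

theorem isDv {T : AV} {r : ℕ} (p q : Fin r → F1 T) (h : HC.IsDiv T p q) : IsDv p q := by
  refine ⟨fun u v hu hv => h.1 u hu v hv, fun u v => ?_⟩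
  exact h.2 u v

theorem zero' {T : AV} {m : ℕ} : AlgC T m 0 := by
  refine AlgC.lin (n := 0) (fun _ => 0) (fun _ => 0) (fun i => i.elim0) 0 (fun a => ?_)
  simp [itg]

theorem add' {T : AV} {m : ℕ} {c d : Hlg T m} (hc : AlgC T m c) (hd : AlgC T m d) :
    AlgC T m (c + d) := by
  refine AlgC.lin (n := 2) (fun _ => 1) ![c, d] (fun i => ?_) (c + d) (fun a => ?_)
  · fin_cases i
    · exact hc
    · exact hd
  · simp [itg, Fin.sum_univ_two]

theorem smul' {T : AV} {m : ℕ} (x : ℂ) {c : Hlg T m} (hc : AlgC T m c) : AlgC T m (x • c) := by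
  refine AlgC.lin (n := 1) (fun _ => x) (fun _ => c) (fun i => hc) (x • c) (fun a => ?_)
  simp [itg]

theorem base {T : AV} {m : ℕ} {c : Hlg T m} (h : HC.Alg T m c) : AlgC T m c := by
  induction h with
  | geo M w hw χ hχ c hc => exact AlgC.geo M w hw χ hχ c hc
  | push φ hφ hc ih =>
    exact AlgC.push (fun v => φ v) (linC φ) (fun v hv => hφ v hv) ih _
      (fun a a' h => push_eq φ _ a a' h)
  | pont hc hd ihc ihd => exact AlgC.pont ihc ihd
  | cap p q h hc ih => exact AlgC.cap p q (isDv p q h) ih _ (fun a => cap_eq p q _ a)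
  | zero => exact zero'
  | add hc hd ihc ihd => exact add' ihc ihd
  | smul x hc ih => exact smul' x ih

end Alg_aux

/-- **Alg**: every class in `Alg2` is in `AlgC`. -/
theorem tAlg (hCur : S_Cur) : S_Alg := by
  intro T m c h
  induction h with
  | base hc => exact Alg_aux.base hc
  | fam γ φ hφ g hg hg0 x hx hS F hF c hc =>
    choose γ' hP hS' hω using fun j => hCur.2 _ (γ j)
    refine AlgC.fam γ' (fun j v => φ j v) (fun j => Alg_aux.linC (φ j)) (fun j v hv => hφ j v hv)
      g hg hg0 x hx (fun j z hz => ?_) F hF c (fun a => ?_)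
    · rw [hS' j]
      exact hS j z hz
    · simp only [hP, hω]
      exact hc a
  | push φ hφ hc ih =>
    exact AlgC.push (fun v => φ v) (Alg_aux.linC φ) (fun v hv => hφ v hv) ih _
      (fun a a' h => Alg_aux.push_eq φ _ a a' h)
  | pont hc hd ihc ihd => exact AlgC.pont ihc ihd
  | cap p q h hc ih =>
    exact AlgC.cap p q (Alg_aux.isDv p q h) ih _ (fun a => Alg_aux.cap_eq p q _ a)
  | zero => exact Alg_aux.zero'
  | add hc hd ihc ihd => exact Alg_aux.add' ihc ihd
  | smul x hc ih => exact Alg_aux.smul' x ih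

end HC.St

end
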