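import Pool.Agent.Lib.SE.St.Spec

/-!
# PROJECT SE-St: module Cm

The commutant: the condition `Cmt` gives `EndQ`.
-/

set_option autoImplicit false

open Module

noncomputable section

namespace HC.St

theorem tCm : S_Cm := by
  intro T Z Z' hZ hC X hX hcom
  have hit : ∀ (k : ℕ) (v : T.V), Z^[k] v = (Z' ^ k) v := by
    intro k
    induction k with
    | zero => intro v; rfl
    | succ k ih =>
      intro v
      rw [Function.iterate_succ_apply, ih, pow_succ, Module.End.mul_apply, hZ]
  obtain ⟨n, x, hx⟩ := hC (fun v => X v) ⟨X.map_add, X.map_smul⟩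
    (by
      rintro v ⟨k, hk, hkv⟩
      obtain ⟨N, hN, hNv⟩ := hX _ hkv
      refine ⟨N * k, Nat.mul_ne_zero hN hk, ?_⟩
      have h1 : (X.restrictScalars ℝ) (k • v) = k • X v := map_nsmul X k v
      rw [h1] at hNv
      rw [mul_nsmul']
      exact hNv)
    (by
      intro v
      have h1 := congrArg (fun Y : Module.End ℂ T.V => Y v) hcom
      simp only [Module.End.mul_apply] at h1
      rw [← hZ v, ← hZ (X v)]
      exact h1)
  refine ⟨∑ k ∈ Finset.range n, Polynomial.monomial k (x k), ?_⟩
  refine LinearMap.ext fun v => ?_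
  rw [hx v, Polynomial.map_sum, map_sum, LinearMap.sum_apply]
  refine Finset.sum_congr rfl fun k _ => ?_
  rw [Polynomial.map_monomial, Polynomial.aeval_monomial, Module.End.mul_apply,
    Module.algebraMap_end_apply, hit k v]
  rfl

end HC.St
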