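import Pool.Agent.Lib.SE.St.Spec

/-!
# SE/St, module Cy: automorphisms with cyclotomic minimal polynomial

`Z` is bundled to a linear map and the cyclotomic polynomial is evaluated coefficientwise.
-/

set_option autoImplicit false

open Module

noncomputable section

namespace HC.St

theorem tCy : S_Cy := by
  rintro T m Z ⟨hC, hL, hs⟩
  let Z' : Module.End ℂ T.V := hC.mk' Z
  have hpow : ∀ (k : ℕ) (v : T.V), (Z' ^ k) v = Z^[k] v := by
    intro k v
    rw [Module.End.pow_apply]
    rfl
  have hdeg : (Polynomial.cyclotomic m ℤ).natDegree < m + 1 := by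
    rw [Polynomial.natDegree_cyclotomic]
    exact Nat.lt_succ_of_le (Nat.totient_le m)
  refine ⟨Z', fun v => rfl, fun v hv => hL v hv, ?_⟩
  apply LinearMap.ext
  intro v
  rw [Polynomial.aeval_eq_sum_range' hdeg, LinearMap.sum_apply, LinearMap.zero_apply, ← hs v]
  refine Finset.sum_congr rfl fun k _ => ?_
  rw [LinearMap.smul_apply, hpow]
  exact (Int.cast_smul_eq_zsmul ℂ _ _).symm

end HC.St
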