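import Pool.Agent.Lib.SE.St.Spec

/-!
# PROJECT SE-St, module Gd (helper14): the class of the factors `G`
-/

set_option autoImplicit false

open Module

noncomputable section

namespace HC.St

open HC.SE (New IsPic)

theorem tGd : S_New → S_Pic → S_Cm → S_Sp → S_Gd := by
  intro hNew hPic hCm hSp p s T hT
  by_cases h2 : finrank ℂ T.V ≤ 2
  · exact Or.inl (Or.inl h2)
  rcases hT with h | hR | hS | ⟨m, Z, hP | ⟨r, i, b, hi, hN, hc⟩⟩
  · exact absurd h h2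
  · obtain ⟨F, i1, i2, i3, ι, h1, h3⟩ := hR
    exact Or.inl (Or.inr (Or.inl
      ⟨F, i1, i2, i3, ι, h1, fun x v hv => h3 x v ⟨1, one_ne_zero, by rwa [one_smul]⟩⟩))
  · obtain ⟨E', h1, h3⟩ := hSp T hS
    exact Or.inl (Or.inr (Or.inr (Or.inl ⟨by omega, E', h1, h3⟩)))
  · obtain ⟨Z', h1, h3⟩ := hPic T m Z hP.1
    exact Or.inl (Or.inr (Or.inr (Or.inr ⟨m, Z', h3, hP.2.1, hCm T Z Z' h1 hP.2.2⟩)))
  · obtain ⟨D, h1⟩ := hNew T m Z r (s ∘ i) b hN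
    exact Or.inr ⟨m, r, b, i, hi, D, hc⟩

end HC.St
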