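import Pool.Agent.Lib.SE.St.Spec

/-!
# PROJECT SE-St, module Mn: the assembly
-/

set_option autoImplicit false

open Module

noncomputable section

namespace HC.St

open HC.SE (Fct IsPol)

/-- The factors `J`. -/
private theorem mn_fct (hNew : S_New) (hPic : S_Pic) (T : AV) (Z : T.V → T.V) (h : IsFc T Z) :
    ∃ (m : ℕ) (Z' : Module.End ℂ T.V), (∀ v, Z' v = Z v) ∧ Fct T m Z' := by
  obtain ⟨m, hm⟩ := h
  rcases hm with hp | ⟨r, s, b, hb, hn⟩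
  · obtain ⟨Z', h1, h2⟩ := hPic _ _ _ hp
    exact ⟨m, Z', h1, Or.inr h2⟩
  · obtain ⟨D, hD⟩ := hNew _ _ _ _ _ _ hn
    exact ⟨m, D.Z, hD, Or.inl ⟨r, s, b, D, hb, rfl⟩⟩

theorem tMn : S_Alg → S_New → S_Pic → S_Gd → S_Is → S_Pl → S_Hdg → S_Su → S_Mn := by
  intro hAlg hNew hPic hGd hIs hPl hHdg hSu hF
  obtain ⟨M, hM, h⟩ := hF
  refine ⟨M, hM, ?_⟩
  intro p s hs A B T N' G f' g' hA hG hfg' q N J j Z E f g hJ hE hfg d c hc hsu
  obtain ⟨ψ', -, hψ'⟩ := hIs B A N' G f' g' hfg'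
  obtain ⟨ψ, hψ1, hψ2⟩ := hIs T B N (fun n => J (j n)) f g hfg
  choose m Z' hZ' hZF using fun i => mn_fct hNew hPic (J i) (Z i) (hJ i)
  choose E' hE' hEP using fun i => hPl (J i) (Z i) (Z' i) (E i) (hZ' i) (hE i)
  refine hAlg T d c (h p s hs A B T N' G hA (fun n => hGd p s (G n) (hG n)) ⟨ψ', hψ'⟩ q N J j m Z' E' ψ
    hZF hEP hψ2 d c (hHdg T d c hc) ?_)
  exact hSu B T q N J j Z E f g Z' E' ψ hZ' hE' hψ1 d c hsu

end HC.St
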