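import Pool.Agent.Lib.SE.St.Spec

/-!
# SE/St/Pl: Riemann forms (helper84)
-/

set_option autoImplicit false

open Module

noncomputable section

namespace HC.St

open HC.SE (Crv Alg2 New Fct IsPic IsPol Lef)

theorem tPl : S_Pl := by
  intro T Z Z' E hZ hE
  obtain ⟨h1, h2, h3, h4, h5, h6⟩ := hE
  have hl : ∀ v, IsLinearMap ℝ fun u => E u v := by
    intro v
    constructor
    · intro x y
      show E (x + y) v = E x v + E y v
      rw [h3, (h1 v).map_add, h3 x, h3 y]
      ring
    · intro c x
      show E (c • x) v = c • E x v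
      rw [h3, (h1 v).map_smul, h3 x, smul_neg]
  refine ⟨LinearMap.mk₂ ℝ E (fun x y v => (hl v).map_add x y) (fun c x v => (hl v).map_smul c x)
    (fun u x y => (h1 u).map_add x y) (fun c u x => (h1 u).map_smul c x), fun u v => rfl, ?_⟩
  refine ⟨fun u hu v hv => h2 u v hu hv, h3, h4, h5, fun u v => ?_⟩
  show E (Z' u) (Z' v) = E u v
  rw [hZ, hZ]
  exact h6 u v

end HC.St
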