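import Pool.Agent.Lib.SE.St.Spec

/-!
# Module Su: the Lie algebras
-/

set_option autoImplicit false

noncomputable section

namespace HC.St

theorem tSu : S_Su := by
  intro B T q N J j Z E f g Z' E' ψ hZ hE hψ m c h P Q hP hQ X hX a
  have key : ∀ (R : ∀ i, Module.End ℝ (J i).V), (∀ i, R i ∈ HC.SE.Lef (J i) (Z' i) (E' i)) →
      ∀ i, IsLf (J i) (Z i) (E i) (fun v => R i v) := by
    intro R hR i
    refine ⟨⟨fun x y => map_add _ x y, fun c x => map_smul _ c x⟩, fun v => ?_, fun u v => ?_⟩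
    · rw [← hZ i, ← hZ i]
      exact (hR i).1 v
    · rw [← hE i, ← hE i]
      exact (hR i).2 u v
  have hX' : ∀ v, f (X v) = 0 ∧ ∀ n, g n (X v) =
      P (j n) (Q (j n) (g n v)) - Q (j n) (P (j n) (g n v)) := by
    intro v
    refine ⟨?_, fun n => ?_⟩
    · rw [← (hψ (X v)).1, hX v]
    · rw [← (hψ (X v)).2 n, hX v, ← (hψ v).2 n]
      rfl
  exact h (fun i v => P i v) (fun i v => Q i v) (fun i => ⟨key P hP i, key Q hQ i⟩)
    (fun v => X v) hX' a (fun i => a i ∘ₗ X) (fun i v => rfl)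

end HC.St
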