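import Pool.Agent.Lib.SE.St.Cur
import Pool.Agent.Lib.SE.St.Alg
import Pool.Agent.Lib.SE.St.Cy
import Pool.Agent.Lib.SE.St.New
import Pool.Agent.Lib.SE.St.Pic
import Pool.Agent.Lib.SE.St.Cm
import Pool.Agent.Lib.SE.St.Sp
import Pool.Agent.Lib.SE.St.Gd
import Pool.Agent.Lib.SE.St.Is
import Pool.Agent.Lib.SE.St.Pl
import Pool.Agent.Lib.SE.St.Hdg
import Pool.Agent.Lib.SE.St.Su
import Pool.Agent.Lib.SE.St.Mn

/-!
# PROJECT SE-St: the theorem, without hypotheses
-/

set_option autoImplicit false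

noncomputable section

namespace HC.St

theorem sNew : S_New := tNew tCy tCur

theorem sPic : S_Pic := tPic tCy

/-- **THE THEOREM.** -/
theorem main : Main :=
  tMn (tAlg tCur) sNew sPic (tGd sNew sPic tCm (tSp tPl)) tIs tPl tHdg tSu SEL.finV

end HC.St
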