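import Pool.Agent.Lib.SE.St.Defs

/-!
# The statement of the last theorem in elementary terms, form (C): all branch sets in `{∞, s_1, …, s_p}`, threefolds
-/

set_option autoImplicit false

noncomputable section

namespace HC.St

/-- `T` has dimension at most `2`, or it has dimension `3` and is isogenous to a product of two abelian
varieties of positive dimension, or it has dimension `3` and the only imaginary quadratic fields which
act on it are `ℚ(i)` and `ℚ(√-3)`. -/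
def IsLow (T : AV) : Prop :=
  Module.finrank ℂ T.V ≤ 2 ∨ (Module.finrank ℂ T.V = 3 ∧
    ((∃ (T₁ T₂ : AV) (f : T.V → T₁.V) (g : Fin 1 → T.V → T₂.V), 0 < Module.finrank ℂ T₁.V ∧
      0 < Module.finrank ℂ T₂.V ∧ IsIs f g) ∨
    ∀ (Z : T.V → T.V) (c : ℚ), IsC Z → (∀ v, Rt T v → Rt T (Z v)) → 0 < c →
      (∀ v, Z (Z v) = mu (-c) v) → ∃ d : ℚ, c = d ^ 2 ∨ c = 3 * d ^ 2))

/-- The points `s_(i j)` of the projective line in the coordinate `x` (`k = none`) or `1 / (x - s_k)`. -/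
def pt {p r : ℕ} (s : Fin p → ℂ) (i : Fin (r + 1) → Fin p) : Option (Fin p) → Fin (r + 1) → ℂ
  | none => fun j => s (i j)
  | some k => fun j => (s (i j) - s k)⁻¹

/-- Four branch points with the exponents `b_0, b_1, b_2, b_3 = -(b_0 + b_1 + b_2)` modulo `m`: no unit
`h ≠ ± 1` modulo `m` exchanges `b_i` and `b_j`, and `b_l` and `b_3`, `{i, j, l} = {0, 1, 2}`. -/
def NoSw (m : ℕ) {r : ℕ} (b : Fin (r + 1) → ℕ) : Prop :=
  ∀ h : ℕ, h.Coprime m → (∃ i j l : Fin (r + 1), i ≠ j ∧ i ≠ l ∧ j ≠ l ∧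
    h * b i ≡ b j [MOD m] ∧ h * b j ≡ b i [MOD m] ∧ m ∣ h * b l + ∑ n, b n) →
    h ≡ 1 [MOD m] ∨ m ∣ h + 1

/-- The factors `G`, for points `s_1, …, s_p` of the complex plane: (1) `IsLow` (`dim T ≤ 3`, with a
condition if `dim T = 3`); (2) real multiplication by a totally real field of degree `dim T`; (3) the Hodge
group is the symplectic group; (4) of Picard type, `dim T ≥ 3`, and only the elements of `ℚ(Z)` commute
with `Z`; or the new part of the Jacobian of a cyclic covering of the projective line of degree `m` whose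
branch set `S` is contained in `{∞, s_1, …, s_p}` (in a coordinate such that a point of `S` is at infinity:
`y ^ m = ∏_j (x - t_j) ^ b_j`, `t = pt s i k`, `i` injective, `k = none` or `k` larger than all `i j`), where
(5) `m ≥ 3`, and if `S` has 4 elements no unit `h ≠ ± 1` modulo `m` exchanges the exponents in pairs, or
(6) `m = 2`, `b_j = 1`, `r ≥ 4` is even. -/
def IsGdC {p : ℕ} (s : Fin p → ℂ) (T : AV) : Prop :=
  IsLow T ∨ IsRl T ∨ IsSp T ∨ ∃ (m : ℕ) (Z : T.V → T.V),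
    (IsPc T m Z ∧ 3 ≤ Module.finrank ℂ T.V ∧ Cmt T Z) ∨
    ∃ (r : ℕ) (i : Fin (r + 1) → Fin p) (k : Option (Fin p)) (b : Fin (r + 1) → ℕ),
      Function.Injective i ∧ (∀ l, k = some l → ∀ j, i j < l) ∧ IsNew T m Z (pt s i k) b ∧
      ((IsCv m (pt s i k) b ∧ (r = 2 → NoSw m b)) ∨
        (m = 2 ∧ (∀ j, b j = 1) ∧ Even r ∧ 4 ≤ r))

/-- THE THEOREM. -/
def MainC : Prop :=
  ∃ M : (p : ℕ) → Set (Fin p → ℂ), (∀ p, IsMeagre (M p)) ∧
  ∀ (p : ℕ) (s : Fin p → ℂ), s ∉ M p →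
  ∀ (A B T : AV) (N' : ℕ) (G : Fin N' → AV) (f' : B.V → A.V) (g' : ∀ n, B.V → (G n).V),
    IsCM A → (∀ n, IsGdC s (G n)) → IsIs f' g' →
    ∀ (q N : ℕ) (J : Fin q → AV) (j : Fin N → Fin q) (Z : ∀ i, (J i).V → (J i).V)
      (E : ∀ i, (J i).V → (J i).V → ℝ) (f : T.V → B.V) (g : ∀ n, T.V → (J (j n)).V),
      (∀ i, IsFc (J i) (Z i)) → (∀ i, IsPl (J i) (Z i) (E i)) → IsIs f g →
      ∀ (d : ℕ) (c : Hlg T d), IsHdg c → SUK Z E f g c → AlgC T d c

end HC.St
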