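import Pool.Agent.Lib.SE.St.Spec
import Pool.Agent.Lib.SE.St.DefsC
import Pool.Agent.Lib.SE.O.Fin

/-!
# PROJECT SE-St: from `SEO.FinU` to the last statement (helper42)
-/

set_option autoImplicit false

open Module

noncomputable section

namespace HC.St

open HC.SE (New IsPic Fct IsPol)

theorem pt_eq {p r : ℕ} (s : Fin p → ℂ) (i : Fin (r + 1) → Fin p) (k : Option (Fin p)) :
    SEZ.pt s i k = pt s i k := by
  rcases k with _ | k <;> rfl

/-- Dimension at most 3. -/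
theorem low (T : AV) (hT : IsLow T) : SEV.Low T := by
  rcases hT with h | ⟨h3, h⟩
  · exact Or.inl h
  refine Or.inr ⟨h3, ?_⟩
  rcases h with ⟨A, B, f, g, hA, hB, hfg⟩ | h
  · left
    refine ⟨A, B, hA, hB, ?_⟩
    let F : T.V →ₗ[ℂ] A.V := hfg.fst.mk' f
    let G : T.V →ₗ[ℂ] B.V := (hfg.snd 0).mk' (g 0)
    have hb : Function.Bijective (F.prod G) := by
      constructor
      · intro v w hvw
        have h1 : f v = f w := congrArg Prod.fst hvw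
        have h2 : g 0 v = g 0 w := congrArg Prod.snd hvw
        refine hfg.bij.1 (Prod.ext h1 (funext fun i => ?_))
        rw [Subsingleton.elim i 0]
        exact h2
      · rintro ⟨a, b⟩
        obtain ⟨v, hv⟩ := hfg.bij.2 (a, fun _ => b)
        have h1 : f v = a := congrArg Prod.fst hv
        have h2 : g 0 v = b := congrFun (congrArg Prod.snd hv) 0
        exact ⟨v, Prod.ext h1 h2⟩
    refine ⟨LinearEquiv.ofBijective (F.prod G) hb, fun v hv => ?_⟩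
    obtain ⟨⟨a, ha, ha'⟩, hr⟩ := hfg.rat v ⟨1, one_ne_zero, by rwa [one_smul]⟩
    obtain ⟨b, hb, hb'⟩ := hr 0
    refine ⟨b * a, Nat.mul_ne_zero hb ha, ?_, ?_⟩
    · change (b * a) • f v ∈ A.L
      rw [mul_smul]
      exact nsmul_mem ha' b
    · change (b * a) • g 0 v ∈ B.L
      rw [mul_comm, mul_smul]
      exact nsmul_mem hb' a
  · right
    intro Z c hZ hc hZc
    refine h (fun v => Z v) c Z.isLinear (fun v hv => ?_) hc fun v => ?_
    · obtain ⟨k, hk, hkv⟩ := hv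
      obtain ⟨N, hN, hNv⟩ := hZ _ hkv
      refine ⟨N * k, Nat.mul_ne_zero hN hk, ?_⟩
      rw [map_nsmul, ← mul_smul] at hNv
      exact hNv
    · have := LinearMap.congr_fun hZc v
      simpa [mu] using this

/-- The factors `G`. -/
theorem gdC {p : ℕ} (hNew : S_New) (hPic : S_Pic) (hCm : S_Cm) (hSp : S_Sp) (s : Fin p → ℂ)
    (T : AV) (hT : IsGdC s T) : SEO.Fau s T := by
  by_cases h2 : finrank ℂ T.V ≤ 2
  · exact Or.inl (Or.inl (Or.inl h2))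
  rcases hT with h | hR | hS | ⟨m, Z, hP | ⟨r, i, k, b, hi, hk, hN, hc⟩⟩
  · exact Or.inl (Or.inl (low T h))
  · obtain ⟨F, i1, i2, i3, ι, h1, h3⟩ := hR
    exact Or.inl (Or.inr (Or.inl
      ⟨F, i1, i2, i3, ι, h1, fun x v hv => h3 x v ⟨1, one_ne_zero, by rwa [one_smul]⟩⟩))
  · obtain ⟨E', h1, h3⟩ := hSp T hS
    exact Or.inl (Or.inr (Or.inr (Or.inl ⟨by omega, E', h1, h3⟩)))
  · obtain ⟨Z', h1, h3⟩ := hPic T m Z hP.1
    exact Or.inl (Or.inr (Or.inr (Or.inr ⟨m, Z', h3, hP.2.1, hCm T Z Z' h1 hP.2.2⟩)))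
  · obtain ⟨D, -⟩ := hNew T m Z r _ b hN
    rw [← pt_eq] at hc
    rw [← pt_eq] at D
    refine Or.inr ⟨m, r, b, i, k, ⟨hi, hk⟩, D, ?_⟩
    rcases hc with ⟨h1, h3⟩ | hc
    · refine Or.inl ⟨h1, ?_⟩
      by_cases hr : r = 2
      · exact Or.inr (Or.inl (h3 hr))
      · exact Or.inl hr
    · exact Or.inr hc

/-- The factors `J`. -/
theorem fcc (hNew : S_New) (hPic : S_Pic) (T : AV) (Z : T.V → T.V) (h : IsFc T Z) :
    ∃ (m : ℕ) (Z' : Module.End ℂ T.V), (∀ v, Z' v = Z v) ∧ Fct T m Z' := by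
  obtain ⟨m, hm⟩ := h
  rcases hm with hp | ⟨r, s, b, hb, hn⟩
  · obtain ⟨Z', h1, h2⟩ := hPic _ _ _ hp
    exact ⟨m, Z', h1, Or.inr h2⟩
  · obtain ⟨D, hD⟩ := hNew _ _ _ _ _ _ hn
    exact ⟨m, D.Z, hD, Or.inl ⟨r, s, b, D, hb, rfl⟩⟩

theorem mnC (hAlg : S_Alg) (hNew : S_New) (hPic : S_Pic) (hCm : S_Cm) (hSp : S_Sp) (hIs : S_Is)
    (hPl : S_Pl) (hHdg : S_Hdg) (hSu : S_Su) (hF : SEO.FinU) : MainC := by
  obtain ⟨M, hM, h⟩ := hF
  refine ⟨M, hM, ?_⟩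
  intro p s hs A B T N' G f' g' hA hG hfg' q N J j Z E f g hJ hE hfg d c hc hsu
  obtain ⟨ψ', -, hψ'⟩ := hIs B A N' G f' g' hfg'
  obtain ⟨ψ, hψ1, hψ2⟩ := hIs T B N (fun n => J (j n)) f g hfg
  choose m Z' hZ' hZF using fun i => fcc hNew hPic (J i) (Z i) (hJ i)
  choose E' hE' hEP using fun i => hPl (J i) (Z i) (Z' i) (E i) (hZ' i) (hE i)
  refine hAlg T d c (h p s hs A B T N' G hA (fun n => gdC hNew hPic hCm hSp s (G n) (hG n))
    ⟨ψ', hψ'⟩ q N J j m Z' E' ψ hZF hEP hψ2 d c (hHdg T d c hc) ?_)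
  exact hSu B T q N J j Z E f g Z' E' ψ hZ' hE' hψ1 d c hsu

end HC.St
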