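import Pool.Agent.Lib.SE.St.All
import Pool.Agent.Lib.SE.St.MnC
import Pool.Agent.Lib.SE.K.Main
import Pool.Agent.Lib.SE.V.Main
import Pool.Agent.Lib.SE.O.Main

/-!
# PROJECT SE-St: the last theorem (from the modules of SE/O)
-/

set_option autoImplicit false

noncomputable section

namespace HC.St

/-- **THE LAST THEOREM**, from the modules of PROJECT SE-O. -/
theorem mainC_of (M : SEO.ModsO) : MainC :=
  mnC (tAlg tCur) sNew sPic tCm (tSp tPl) tIs tPl tHdg tSu
    (SEO.finU_of SEV.modsV SEK.modsK SEK.tJnk M)

/-- **THE LAST THEOREM**, form (C), without hypotheses. -/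
theorem mainC : MainC := mainC_of SEO.modsO

end HC.St
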