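import Pool.Agent.Lib.SE.St.Spec

/-!
# SE/St, module Cur: curves

The structures `HC.St.Cur` and `HC.SE.Crv` have the same fields.
-/

set_option autoImplicit false

noncomputable section

namespace HC.St

open HC.SE (Crv)

theorem tCur : S_Cur :=
  ⟨fun _ γ => ⟨⟨γ.P, γ.S, γ.α, γ.ω, γ.poly, γ.fin, γ.et, γ.map, γ.area⟩, rfl, rfl, rfl⟩,
    fun _ γ => ⟨⟨γ.P, γ.S, γ.α, γ.ω, γ.poly, γ.fin, γ.et, γ.map, γ.area⟩, rfl, rfl, rfl⟩⟩

end HC.St
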