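import Pool.Agent.Lib.SE.St.Defs
import Pool.Agent.Lib.SE.L.Smp

/-!
# PROJECT SE-St: from the internal definitions to the statement (helper45)

SE/St/Defs.lean holds the statement of the hand-in in elementary terms (the grader prints the
statement with all hidden arguments; the internal definitions are too long for it). The modules
below translate. In this file `HC.St` and `HC.SE` have definitions with the same names (`IsPoly`,
`SUK`): they are written with their namespace.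

Every module: file `SE/St/Xyz.lean`, `theorem tXyz : S_Xyz`, namespace `HC.St`, import only
`Pool.Agent.Lib.SE.St.Spec` (and proved modules).
-/

set_option autoImplicit false

open Module

noncomputable section

namespace HC.St

open HC.SE (Crv Alg2 New Fct IsPic IsPol Lef)

/-- **Cur**: CURVES. PROOF. The same fields (`HC.St.IsPoly f ↔ HC.SE.IsPoly f` is `Iff.rfl`). -/
def S_Cur : Prop :=
  (∀ (T : AV) (γ : Cur T), ∃ γ' : Crv T, γ'.P = γ.P ∧ γ'.S = γ.S ∧ γ'.ω = γ.ω) ∧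
  ∀ (T : AV) (γ : Crv T), ∃ γ' : Cur T, γ'.P = γ.P ∧ γ'.S = γ.S ∧ γ'.ω = γ.ω

/-- **Alg**: ALGEBRAIC CLASSES. From `S_Cur`. PROOF. First `Alg T m c → AlgC T m c` by induction, then
`Alg2`. `geo`: the same. `push`: `HC.push φ c` evaluated at `a'` is `c` at `a' i ∘ φ`. `cap`: `HC.cap`,
`AlternatingMap.curryLeft_apply_apply`; `IsDiv` is `IsDv` (unfold `wd`, `ev`, `mu`). `zero`, `add`,
`smul`: `lin` with `n = 0, 2, 1`. `fam`: the curves of `S_Cur` (`choose`), `mu x v = x • v`. -/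
def S_Alg : Prop := ∀ (T : AV) (m : ℕ) (c : Hlg T m), Alg2 T m c → AlgC T m c

/-- **Cy**: AUTOMORPHISMS. PROOF. `Z'` = `Z` bundled. `aeval Z' Φ = ∑_(k ≤ m) coeff k • Z' ^ k`
(`Polynomial.aeval_eq_sum_range'`, `natDegree Φ_m = φ(m) < m + 1`, `Polynomial.natDegree_cyclotomic`,
`Nat.totient_le`), `(Z' ^ k) v = Z^[k] v` (`Module.End.pow_apply` or induction), the integer `coeff k`
acts as the complex number. -/
def S_Cy : Prop :=
  ∀ (T : AV) (m : ℕ) (Z : T.V → T.V), IsCy T m Z → ∃ Z' : Module.End ℂ T.V,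
    (∀ v, Z' v = Z v) ∧ (∀ v ∈ T.L, Z' v ∈ T.L) ∧
    Polynomial.aeval Z' (Polynomial.cyclotomic m ℤ) = 0

/-- **New**. From `S_Cy`, `S_Cur`. PROOF. Bundle. -/
def S_New : Prop :=
  ∀ (T : AV) (m : ℕ) (Z : T.V → T.V) (r : ℕ) (s : Fin (r + 1) → ℂ) (b : Fin (r + 1) → ℕ),
    IsNew T m Z s b → ∃ D : New T m s b, ∀ v, D.Z v = Z v

/-- **Pic**. From `S_Cy`. PROOF. The eigenspace for `z` is the span of `e`
(`finrank_eq_one_iff'` or `finrank_span_singleton`). -/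
def S_Pic : Prop :=
  ∀ (T : AV) (m : ℕ) (Z : T.V → T.V), IsPc T m Z → ∃ Z' : Module.End ℂ T.V,
    (∀ v, Z' v = Z v) ∧ IsPic T m Z'

/-- **Cm**: the commutant. PROOF. `X : Module.End ℂ T.V` with `RatEnd`: for `v` with `k • v ∈ L` there is
`N` with `N • X (k • v) ∈ L`, so `Rt T v → Rt T (X v)`. The polynomial `p = ∑_(k < n) C (x k) * X ^ k`. -/
def S_Cm : Prop :=
  ∀ (T : AV) (Z : T.V → T.V) (Z' : Module.End ℂ T.V), (∀ v, Z' v = Z v) → Cmt T Z →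
    SEB.EndQ T Z'

/-- **Sp**: HODGE GROUP Sp. From `S_Pl`. PROOF. `IsPl T (fun v => v) E` gives `E'` by `S_Pl` (`Z' = 1`); it is
`SES.IsRf`. `SpB E'`: for `h'` with `HLieS E' h'` take `h = {X | ∃ X' ∈ h', ∀ v, X v = X' v}`; `HL`: `IsQLie`, and `mulI`
in the real span of `h'` is a finite sum (`Submodule.mem_span_set'` or `Submodule.span_induction` for
`{X' | Cmb h X'}`). Conversely `Cmb` of commutators is in the span of `Com h'`. -/
def S_Sp : Prop :=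
  ∀ T : AV, IsSp T → ∃ E' : T.V →ₗ[ℝ] T.V →ₗ[ℝ] ℝ, SES.IsRf T E' ∧ SES.SpB E'

/-- **Gd**: the class. From `S_New`, `S_Pic`, `S_Cm`, `S_Sp`. PROOF. `IsRl → IsRM`: `Rt T v` for `v ∈ L` (`k = 1`).
If `finrank ≤ 2` the first case of `Fa1`; `IsSp` with `finrank ≥ 2` is `IsSy`. -/
def S_Gd : Prop :=
  ∀ (p : ℕ) (s : Fin p → ℂ) (T : AV), IsGd s T → SEL.Fax s T

/-- **Is**: ISOGENIES. PROOF. `ψ` = `(f, g)` bundled (`LinearEquiv.ofBijective`). For `v ∈ L`: `Rt T v`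
(`k = 1`), so there are `k₀`, `k_i ≠ 0` with `k₀ • f v ∈ A.L`, `k_i • g i v ∈ (G i).L`; `k = k₀ ∏ k_i`. -/
def S_Is : Prop :=
  ∀ (T A : AV) (n : ℕ) (G : Fin n → AV) (f : T.V → A.V) (g : ∀ i, T.V → (G i).V), IsIs f g →
    ∃ ψ : T.V ≃ₗ[ℂ] A.V × (∀ i, (G i).V), (∀ v, (ψ v).1 = f v ∧ ∀ i, (ψ v).2 i = g i v) ∧
      ∀ v ∈ T.L, ∃ k : ℕ, k ≠ 0 ∧ k • (ψ v).1 ∈ A.L ∧ ∀ i, k • (ψ v).2 i ∈ (G i).L

/-- **Pl**: RIEMANN FORMS. PROOF. Bundle (`LinearMap.mk₂`; linearity in the first variable by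
`E u v = -E v u`). -/
def S_Pl : Prop :=
  ∀ (T : AV) (Z : T.V → T.V) (Z' : Module.End ℂ T.V) (E : T.V → T.V → ℝ), (∀ v, Z' v = Z v) →
    IsPl T Z E → ∃ E' : T.V →ₗ[ℝ] T.V →ₗ[ℝ] ℝ, (∀ u v, E' u v = E u v) ∧ IsPol T Z' E'

/-- **Hdg**: HODGE CLASSES. PROOF. `a' i = a i ∘ (u • id)`; `HC.push`, `HC.pull` unfold. -/
def S_Hdg : Prop := ∀ (T : AV) (m : ℕ) (c : Hlg T m), IsHdg c → IsHodge T m c

/-- **Su**: THE LIE ALGEBRAS. PROOF. `P i`, `Q i`, `X` as functions; `IsLf`: `IsR` from the linear map;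
`a' i = a i ∘ₗ X` in `Kil`, `dact`. -/
def S_Su : Prop :=
  ∀ (B T : AV) (q N : ℕ) (J : Fin q → AV) (j : Fin N → Fin q) (Z : ∀ i, (J i).V → (J i).V)
    (E : ∀ i, (J i).V → (J i).V → ℝ) (f : T.V → B.V) (g : ∀ n, T.V → (J (j n)).V)
    (Z' : ∀ i, Module.End ℂ (J i).V) (E' : ∀ i, (J i).V →ₗ[ℝ] (J i).V →ₗ[ℝ] ℝ)
    (ψ : T.V ≃ₗ[ℂ] B.V × (∀ n, (J (j n)).V)),
    (∀ i v, Z' i v = Z i v) → (∀ i u v, E' i u v = E i u v) →
    (∀ v, (ψ v).1 = f v ∧ ∀ n, (ψ v).2 n = g n v) →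
    ∀ (m : ℕ) (c : Hlg T m), HC.St.SUK Z E f g c → HC.SE.SUK Z' E' ψ c

/-- **Mn**: ASSEMBLY. From all modules above. PROOF. `IsProdE B A G` and `ψ` by `S_Is`, `Fct` by `S_New`,
`S_Pic` (`IsCv` is `IsCov`), `E'` by `S_Pl`. -/
def S_Mn : Prop := SEL.FinV → Main

end HC.St
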