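import Pool.Agent.Lib.SE.St.DefsC
import Pool.Agent.Lib.SE.St.Spec
import Pool.Agent.Lib.SE.L.SpecZ

/-!
# PROJECT SE-St: threefolds
-/

set_option autoImplicit false

open Module

noncomputable section

namespace HC.St

theorem rt_of_ratEnd {T : AV} {X : Module.End ℂ T.V} (hX : RatEnd T (X.restrictScalars ℝ))
    {v : T.V} (hv : Rt T v) : Rt T (X v) := by
  obtain ⟨k, hk, hkv⟩ := hv
  obtain ⟨N, hN, hNv⟩ := hX _ hkv
  refine ⟨N * k, Nat.mul_ne_zero hN hk, ?_⟩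
  have h1 : (X.restrictScalars ℝ) (k • v) = k • X v := map_nsmul X k v
  rw [h1] at hNv
  rw [mul_nsmul']
  exact hNv

theorem isLow_low (hIs : S_Is) {T : AV} (h : IsLow T) : SEV.Low T := by
  rcases h with h | ⟨h3, h⟩
  · exact Or.inl h
  refine Or.inr ⟨h3, ?_⟩
  rcases h with ⟨T₁, T₂, f, g, h1, h2, h⟩ | h
  · left
    obtain ⟨ψ, -, hψ⟩ := hIs T T₁ 1 (fun _ => T₂) f g h
    refine ⟨T₁, T₂, h1, h2,
      ψ.trans (LinearEquiv.prodCongr (LinearEquiv.refl ℂ T₁.V)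
        (LinearEquiv.funUnique (Fin 1) ℂ T₂.V)), fun v hv => ?_⟩
    obtain ⟨k, hk, hk1, hk2⟩ := hψ v hv
    exact ⟨k, hk, hk1, hk2 0⟩
  · right
    intro Z c hZ hc hZZ
    refine h (fun v => Z v) c ⟨Z.map_add, Z.map_smul⟩ (fun v hv => rt_of_ratEnd hZ hv) hc
      fun v => ?_
    have h1 := congrArg (fun Y : Module.End ℂ T.V => Y v) hZZ
    have h2 : Z (Z v) = (-(c : ℂ) • (1 : Module.End ℂ T.V)) v := h1
    rw [h2]
    rfl

theorem pt_eq {p r : ℕ} (s : Fin p → ℂ) (i : Fin (r + 1) → Fin p) (k : Option (Fin p)) :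
    pt s i k = SEZ.pt s i k := by
  cases k <;> rfl

end HC.St
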